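import Pool.Agent.Lib.MP_420470_an.Flat
import Pool.Agent.Lib.MP_420470_an.Domain

/-!
# No finite (not even infinite) jet determination at boundary points

For all `n ≥ 1` and `N ≥ n + 1` there are a strongly pseudoconvex (even convex) domain in complex `N`-space and two
different proper holomorphic embeddings of the unit ball of complex `n`-space, smooth on the whole space, which agree
to infinite order at a boundary point.
-/

set_option autoImplicit false

open scoped ContDiff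
open Filter

namespace Pool.Agent.Results.MP_420470_an.FlatContactMaps

open Pool.Agent.Lib.MP_420470_an

/-- the open unit ball of complex `n`-space, for the euclidean norm -/
def unitBall (n : ℕ) : Set (Fin n → ℂ) := {z | ∑ i, ‖z i‖ ^ 2 < 1}

/-- four times the Levi form of `ρ` at `z` in the direction `v` -/
noncomputable def levi {N : ℕ} (ρ : (Fin N → ℂ) → ℝ) (z v : Fin N → ℂ) : ℝ :=
  fderiv ℝ (fderiv ℝ ρ) z v v + fderiv ℝ (fderiv ℝ ρ) z (Complex.I • v) (Complex.I • v)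

/-- strongly pseudoconvex domains: bounded domains with a smooth defining function `ρ` whose differential does not
vanish at the boundary points and whose Levi form is positive definite on the complex tangent space
`{v | dρ(v) = dρ(iv) = 0}` at every boundary point -/
def StronglyPseudoconvex {N : ℕ} (Ω : Set (Fin N → ℂ)) : Prop :=
  IsOpen Ω ∧ IsConnected Ω ∧ Bornology.IsBounded Ω ∧
    ∃ ρ : (Fin N → ℂ) → ℝ, ContDiff ℝ ∞ ρ ∧ Ω = {z | ρ z < 0} ∧
      ∀ z ∈ frontier Ω, fderiv ℝ ρ z ≠ 0 ∧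
        ∀ v : Fin N → ℂ, v ≠ 0 → fderiv ℝ ρ z v = 0 → fderiv ℝ ρ z (Complex.I • v) = 0 →
          0 < levi ρ z v

/-- proper holomorphic maps `Ω → Ω'` with a smooth extension to the whole space -/
structure ProperMap {n N : ℕ} (Ω : Set (Fin n → ℂ)) (Ω' : Set (Fin N → ℂ))
    (f : (Fin n → ℂ) → (Fin N → ℂ)) : Prop where
  smooth : ContDiff ℝ ∞ f
  holomorphic : DifferentiableOn ℂ f Ω
  maps : Set.MapsTo f Ω Ω'
  proper : ∀ K : Set (Fin N → ℂ), IsCompact K → K ⊆ Ω' → IsCompact (Ω ∩ f ⁻¹' K)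

/-! ### The flat function at the point `1` -/

private noncomputable def G (u : ℂ) : ℂ := H (1 - u)

private theorem nat_le_infty (m : ℕ) : ((m : ℕ) : WithTop ℕ∞) ≤ ∞ := by exact_mod_cast le_top

private theorem G_contDiff : ContDiff ℝ ∞ G := H_contDiff.comp (contDiff_const.sub contDiff_id)

private theorem G_iter (m : ℕ) (u : ℂ) :
    ‖iteratedFDeriv ℝ m G u‖ = ‖iteratedFDeriv ℝ m H (1 - u)‖ := by
  have h1 : G = fun u => (H ∘ (LinearIsometryEquiv.neg ℝ : ℂ ≃ₗᵢ[ℝ] ℂ)) (u - 1) := by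
    funext u
    simp only [G, Function.comp, LinearIsometryEquiv.coe_neg, neg_sub]
  rw [h1, iteratedFDeriv_comp_sub,
    LinearIsometryEquiv.norm_iteratedFDeriv_comp_right (𝕜 := ℝ) (LinearIsometryEquiv.neg ℝ) H]
  simp

private theorem G_iter_one (m : ℕ) : iteratedFDeriv ℝ m G 1 = 0 := by
  rw [← norm_eq_zero, G_iter, sub_self, iter_H_zero, norm_zero]

private theorem G_bound (m : ℕ) : ∃ C : ℝ, 0 ≤ C ∧ ∀ u, ‖iteratedFDeriv ℝ m G u‖ ≤ C := by
  obtain ⟨C, hC, h⟩ := iter_H_bound m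
  exact ⟨C, hC, fun u => by rw [G_iter]; exact h _⟩

private theorem G_holo : DifferentiableOn ℂ G {u : ℂ | u.re < 1} := by
  refine H_differentiableOn.comp ((differentiable_const _).sub differentiable_id).differentiableOn ?_
  intro u hu
  simp only [Set.mem_ofPred_eq, Complex.sub_re, Complex.one_re] at hu ⊢
  linarith

/-- There is a small multiple of `G` whose squared modulus has small values and derivatives. -/
private theorem exists_scale : ∃ s : ℝ, 0 < s ∧ (∀ u : ℂ, ‖(s : ℂ) * G u‖ ^ 2 ≤ 1) ∧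
    (∀ u : ℂ, ‖fderiv ℝ (fderiv ℝ (fun u => ‖(s : ℂ) * G u‖ ^ 2)) u‖ ≤ 1 / 2) := by
  obtain ⟨C0, hC0, h0⟩ := G_bound 0
  obtain ⟨C1, hC1, h1⟩ := G_bound 1
  obtain ⟨C2, hC2, h2⟩ := G_bound 2
  let M : ℝ := C0 ^ 2 + 2 * (C0 * C2 + 2 * C1 * C1 + C2 * C0) + 1
  have hM : 0 < M := by positivity
  have hM1 : 1 ≤ M := by
    have : 0 ≤ C0 ^ 2 + 2 * (C0 * C2 + 2 * C1 * C1 + C2 * C0) := by positivity
    simp only [M]; linarith
  have hK : ∀ u : ℂ, ‖iteratedFDeriv ℝ 2 (fun u => ‖G u‖ ^ 2) u‖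
      ≤ C0 * C2 + 2 * C1 * C1 + C2 * C0 := by
    intro u
    have e1 : (fun u => ‖G u‖ ^ 2) = (fun u => (innerSL ℝ (G u)) (G u)) := by
      funext u
      simp
    rw [e1]
    have e2 := (innerSL ℝ (E := ℂ)).norm_iteratedFDeriv_le_of_bilinear G_contDiff G_contDiff u
      (n := 2) (nat_le_infty 2)
    refine e2.trans ?_
    have e3 : ‖(innerSL ℝ (E := ℂ))‖ ≤ 1 := by
      refine ContinuousLinearMap.opNorm_le_bound _ zero_le_one (fun x => ?_)
      rw [innerSL_apply_norm, one_mul]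
    simp only [Finset.sum_range_succ, Finset.sum_range_zero, Nat.choose_zero_right, Nat.cast_one,
      one_mul, zero_add, Nat.choose_one_right, Nat.cast_ofNat, Nat.choose_self, Nat.sub_zero]
    have p0 := norm_nonneg (iteratedFDeriv ℝ 0 G u)
    have p1 := norm_nonneg (iteratedFDeriv ℝ 1 G u)
    have p2 := norm_nonneg (iteratedFDeriv ℝ 2 G u)
    have q0 := h0 u
    have q1 := h1 u
    have q2 := h2 u
    have e4 : (‖iteratedFDeriv ℝ 0 G u‖ * ‖iteratedFDeriv ℝ 2 G u‖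
        + 2 * ‖iteratedFDeriv ℝ 1 G u‖ * ‖iteratedFDeriv ℝ (2 - 1) G u‖
        + ‖iteratedFDeriv ℝ 2 G u‖ * ‖iteratedFDeriv ℝ 0 G u‖)
        ≤ C0 * C2 + 2 * C1 * C1 + C2 * C0 := by
      have : (2 - 1 : ℕ) = 1 := rfl
      rw [this]
      gcongr
    refine (mul_le_mul e3 e4 (by positivity) zero_le_one).trans ?_
    rw [one_mul]
  let s : ℝ := 1 / (2 * M)
  have hs : 0 < s := by positivity
  have hs1 : s ≤ 1 / 2 := by
    simp only [s]
    rw [div_le_div_iff₀ (by positivity) (by norm_num)]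
    linarith
  have hs2 : s ^ 2 * M ≤ 1 / 2 := by
    have : s * M = 1 / 2 := by simp only [s]; field_simp
    calc s ^ 2 * M = s * (s * M) := by ring
      _ = s * (1 / 2) := by rw [this]
      _ ≤ 1 / 2 := by linarith
  have hfun : (fun u => ‖(s : ℂ) * G u‖ ^ 2) = (s ^ 2) • (fun u => ‖G u‖ ^ 2) := by
    funext u
    simp [mul_pow, abs_of_pos hs]
  refine ⟨s, hs, fun u => ?_, fun u => ?_⟩
  · have e1 := congrFun hfun u
    simp only [Pi.smul_apply, smul_eq_mul] at e1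
    rw [e1]
    have e2 : ‖G u‖ ≤ C0 := by simpa using h0 u
    have e3 : ‖G u‖ ^ 2 ≤ M := by
      have : ‖G u‖ ^ 2 ≤ C0 ^ 2 := by gcongr
      have h5 : 0 ≤ 2 * (C0 * C2 + 2 * C1 * C1 + C2 * C0) := by positivity
      simp only [M]; linarith
    have : s ^ 2 * ‖G u‖ ^ 2 ≤ s ^ 2 * M := by gcongr
    linarith
  · rw [← norm_iteratedFDeriv_one (𝕜 := ℝ) (fderiv ℝ _), norm_iteratedFDeriv_fderiv, hfun]
    have hcd : ContDiff ℝ ∞ (fun u => ‖G u‖ ^ 2) := G_contDiff.norm_sq ℝ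
    rw [iteratedFDeriv_const_smul_apply (hcd.contDiffAt.of_le (nat_le_infty (1 + 1))), norm_smul]
    have e1 : ‖s ^ 2‖ = s ^ 2 := by rw [Real.norm_of_nonneg (by positivity)]
    rw [e1]
    have e2 := hK u
    have e3 : ‖iteratedFDeriv ℝ (1 + 1) (fun u => ‖G u‖ ^ 2) u‖ ≤ M := by
      refine e2.trans ?_
      have h5 : 0 ≤ C0 ^ 2 := by positivity
      have h6 : 0 ≤ (C0 * C2 + 2 * C1 * C1 + C2 * C0) := by positivity
      simp only [M]; linarith
    calc _ ≤ s ^ 2 * M := by gcongr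
      _ ≤ 1 / 2 := hs2


/-! ### The maps -/

/-- `z ↦ (z, t G(z 0), 0)` -/
private noncomputable def FF {n : ℕ} (M : ℕ) (t : ℝ) (z : Fin (n + 1) → ℂ) :
    Fin (n + 1 + 1 + M) → ℂ :=
  Fin.append (Fin.snoc (α := fun _ => ℂ) z ((t : ℂ) * G (z 0))) (fun _ : Fin M => 0)

private theorem FF_left {n M : ℕ} (t : ℝ) (z : Fin (n + 1) → ℂ) (i : Fin (n + 1)) :
    FF M t z (Fin.castAdd M (Fin.castSucc i)) = z i := by
  unfold FF
  rw [Fin.append_left, Fin.snoc_castSucc]

private theorem FF_mid {n M : ℕ} (t : ℝ) (z : Fin (n + 1) → ℂ) :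
    FF M t z (Fin.castAdd M (Fin.last (n + 1))) = (t : ℂ) * G (z 0) := by
  unfold FF
  rw [Fin.append_left, Fin.snoc_last]

private theorem FF_right {n M : ℕ} (t : ℝ) (z : Fin (n + 1) → ℂ) (i : Fin M) :
    FF M t z (Fin.natAdd (n + 1 + 1) i) = 0 := by
  unfold FF
  rw [Fin.append_right]

private theorem FF_zero {n M : ℕ} (t : ℝ) (z : Fin (n + 1) → ℂ) :
    FF M t z (Fin.castAdd M (Fin.castSucc 0)) = z 0 := FF_left t z 0

private theorem FF_cases {n M : ℕ} {P : Fin (n + 1 + 1 + M) → Prop}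
    (h1 : ∀ i : Fin (n + 1), P (Fin.castAdd M (Fin.castSucc i)))
    (h2 : P (Fin.castAdd M (Fin.last (n + 1)))) (h3 : ∀ i : Fin M, P (Fin.natAdd (n + 1 + 1) i))
    (i : Fin (n + 1 + 1 + M)) : P i := by
  refine Fin.addCases (fun j => ?_) h3 i
  exact Fin.lastCases h2 h1 j

private theorem FF_contDiff {n M : ℕ} (t : ℝ) : ContDiff ℝ ∞ (FF (n := n) M t) := by
  rw [contDiff_pi]
  refine FF_cases (fun i => ?_) ?_ (fun i => ?_)
  · simp only [FF_left]
    exact contDiff_apply ℝ ℂ i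
  · simp only [FF_mid]
    exact contDiff_const.mul (G_contDiff.comp (contDiff_apply ℝ ℂ (0 : Fin (n + 1))))
  · simp only [FF_right]
    exact contDiff_const

private theorem FF_holo {n M : ℕ} (t : ℝ) :
    DifferentiableOn ℂ (FF (n := n) M t) {z | (z 0).re < 1} := by
  have e0 : DifferentiableOn ℂ (fun z : Fin (n + 1) → ℂ => z 0) {z | (z 0).re < 1} :=
    (differentiable_apply (𝕜 := ℂ) (0 : Fin (n + 1))).differentiableOn
  rw [differentiableOn_pi]
  refine FF_cases (fun i => ?_) ?_ (fun i => ?_)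
  · simp only [FF_left]
    exact (differentiable_apply (𝕜 := ℂ) i).differentiableOn
  · simp only [FF_mid]
    exact (G_holo.comp e0 (fun z hz => hz)).const_mul _
  · simp only [FF_right]
    exact differentiableOn_const _

private theorem FF_injective {n M : ℕ} (t : ℝ) : Function.Injective (FF (n := n) M t) := by
  intro z w h
  funext i
  rw [← FF_left (M := M) t z i, ← FF_left (M := M) t w i, h]

private theorem FF_PP {n M : ℕ} (s t : ℝ) (hst : s ^ 2 = t ^ 2) (z : Fin (n + 1) → ℂ) :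
    PP (N := n + 1 + 1 + M) 0 (Fin.castAdd M (Fin.castSucc 0)) (fun u => ‖(s : ℂ) * G u‖ ^ 2)
      (FF M t z) = ∑ i, ‖z i‖ ^ 2 - 1 := by
  unfold PP SS
  rw [FF_zero, Fin.sum_univ_add, Fin.sum_univ_castSucc]
  simp only [Pi.sub_apply, Pi.zero_apply, sub_zero, FF_left, FF_mid, FF_right, norm_zero]
  have h1 : ‖(t : ℂ) * G (z 0)‖ ^ 2 = ‖(s : ℂ) * G (z 0)‖ ^ 2 := by
    rw [norm_mul, norm_mul, mul_pow, mul_pow, Complex.norm_real, Complex.norm_real,
      Real.norm_eq_abs, Real.norm_eq_abs, sq_abs, sq_abs, hst]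
  rw [h1]
  simp only [ne_eq, OfNat.ofNat_ne_zero, not_false_eq_true, zero_pow, Finset.sum_const_zero,
    add_zero]
  ring

private theorem ball_spc (n : ℕ) : StronglyPseudoconvex (unitBall (n + 1)) := by
  have h := spc_PP (N := n + 1) 0 0 (fun _ => 0) contDiff_const (fun _ => le_rfl)
    (fun _ => by norm_num) (by
      intro u
      have e0 : fderiv ℝ (fun _ : ℂ => (0:ℝ)) = fun _ => 0 := by
        funext x
        exact fderiv_const_apply 0
      rw [e0]
      have e1 : fderiv ℝ (fun _ : ℂ => (0 : ℂ →L[ℝ] ℝ)) u = 0 := fderiv_const_apply 0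
      rw [e1]
      exact (norm_zero (E := ℂ →L[ℝ] ℂ →L[ℝ] ℝ)).le.trans (by norm_num))
  have h1 : {z : Fin (n + 1) → ℂ | PP 0 0 (fun _ => 0) z < 0} = unitBall (n + 1) := by
    ext z
    unfold unitBall PP SS
    simp only [Set.mem_ofPred_eq, sub_zero]
    rw [sub_neg]
  rw [h1] at h
  exact h

private theorem ball_re {n : ℕ} {z : Fin (n + 1) → ℂ} (hz : z ∈ unitBall (n + 1)) :
    (z 0).re < 1 := by
  have h0 : ∑ i, ‖z i‖ ^ 2 < 1 := hz
  have h1 : ‖z 0‖ ^ 2 ≤ ∑ i, ‖z i‖ ^ 2 :=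
    Finset.single_le_sum (f := fun i => ‖z i‖ ^ 2) (fun i _ => by positivity) (Finset.mem_univ 0)
  have h2 : ‖z 0‖ < 1 := by
    have := norm_nonneg (z 0)
    nlinarith
  exact (Complex.re_le_norm _).trans_lt h2

private theorem one_mem_frontier (n : ℕ) : (Pi.single 0 1 : Fin (n + 1) → ℂ) ∈
    frontier (unitBall (n + 1)) := by
  have hopen : IsOpen (unitBall (n + 1)) := (ball_spc n).1
  rw [hopen.frontier_eq]
  have hsum : ∀ c : ℂ, ∑ i, ‖(Pi.single 0 c : Fin (n + 1) → ℂ) i‖ ^ 2 = ‖c‖ ^ 2 := by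
    intro c
    rw [Finset.sum_eq_single 0]
    · rw [Pi.single_eq_same]
    · intro i _ hi
      rw [Pi.single_eq_of_ne hi, norm_zero]
      norm_num
    · intro h
      exact absurd (Finset.mem_univ _) h
  refine ⟨?_, ?_⟩
  · have hcont : Tendsto (fun x : ℝ => (Pi.single 0 ((1 - x : ℝ) : ℂ) : Fin (n + 1) → ℂ))
        (nhdsWithin 0 (Set.Ioi 0)) (nhds (Pi.single 0 1)) := by
      have h1 : Continuous (fun x : ℝ => (Pi.single 0 ((1 - x : ℝ) : ℂ) : Fin (n + 1) → ℂ)) :=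
        (continuous_single 0).comp
          (Complex.continuous_ofReal.comp (continuous_const.sub continuous_id))
      have h2 := h1.tendsto 0
      simp only [sub_zero, Complex.ofReal_one] at h2
      exact h2.mono_left nhdsWithin_le_nhds
    refine mem_closure_of_tendsto hcont ?_
    have : Set.Ioo (0:ℝ) 1 ∈ nhdsWithin (0:ℝ) (Set.Ioi 0) := Ioo_mem_nhdsGT one_pos
    filter_upwards [this] with x hx
    change ∑ i, ‖(Pi.single 0 ((1 - x : ℝ) : ℂ) : Fin (n + 1) → ℂ) i‖ ^ 2 < 1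
    rw [hsum, Complex.norm_real, Real.norm_eq_abs, sq_abs]
    nlinarith [hx.1, hx.2]
  · intro h
    have h1 : ∑ i, ‖(Pi.single 0 1 : Fin (n + 1) → ℂ) i‖ ^ 2 < 1 := h
    rw [hsum] at h1
    norm_num at h1

private theorem convex_PP {N : ℕ} (c : Fin N → ℂ) (i0 : Fin N) (κ : ℂ → ℝ) (hκ : ContDiff ℝ ∞ κ)
    (h2 : ∀ u, ‖fderiv ℝ (fderiv ℝ κ) u‖ ≤ 1 / 2) : Convex ℝ {z | PP c i0 κ z < 0} := by
  intro a ha b hb s t hs ht hst
  simp only [Set.mem_ofPred_eq] at ha hb ⊢
  have e1 := PP_convex_ineq c i0 κ hκ h2 (s • a + t • b) a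
  have e2 := PP_convex_ineq c i0 κ hκ h2 (s • a + t • b) b
  set x := s • a + t • b with hx
  set D := fderiv ℝ (PP c i0 κ) x with hD
  have e3 : s * D (a - x) + t * D (b - x) = 0 := by
    have : s • (a - x) + t • (b - x) = 0 := by
      rw [hx, smul_sub, smul_sub]
      have : s = 1 - t := by linarith
      subst this
      module
    have h := congrArg D this
    simpa using h
  rcases eq_or_lt_of_le hs with h | h
  · have : t = 1 := by linarith
    subst this
    nlinarith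
  · nlinarith

private theorem flat_diff (n M : ℕ) (s : ℝ) (m : ℕ) :
    iteratedFDeriv ℝ m (FF M s) (Pi.single 0 1 : Fin (n + 1) → ℂ) =
      iteratedFDeriv ℝ m (FF M (-s)) (Pi.single 0 1 : Fin (n + 1) → ℂ) := by
  let L : ℂ →L[ℝ] (Fin (n + 1 + 1 + M) → ℂ) :=
    ContinuousLinearMap.pi (Pi.single (Fin.castAdd M (Fin.last (n + 1)))
      ((-(2 * s)) • ContinuousLinearMap.id ℝ ℂ))
  have hL1 : ∀ (i : Fin (n + 1)) (u : ℂ), L u (Fin.castAdd M (Fin.castSucc i)) = 0 := by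
    intro i u
    simp only [L, ContinuousLinearMap.coe_pi']
    rw [Pi.single_eq_of_ne]
    · rfl
    · intro h
      exact (Fin.castSucc_lt_last i).ne (Fin.castAdd_injective _ _ h)
  have hL2 : ∀ u : ℂ, L u (Fin.castAdd M (Fin.last (n + 1))) = (-(2 * s) : ℝ) • u := by
    intro u
    simp only [L, ContinuousLinearMap.coe_pi', Pi.single_eq_same]
    rfl
  have hL3 : ∀ (i : Fin M) (u : ℂ), L u (Fin.natAdd (n + 1 + 1) i) = 0 := by
    intro i u
    simp only [L, ContinuousLinearMap.coe_pi']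
    rw [Pi.single_eq_of_ne]
    · rfl
    · intro h
      have := congrArg Fin.val h
      simp only [Fin.val_natAdd, Fin.val_castAdd, Fin.val_last] at this
      omega
  have hfun : FF M (-s) = FF M s + (fun z : Fin (n + 1) → ℂ => L (G (z 0))) := by
    funext z
    refine funext (FF_cases (fun i => ?_) ?_ (fun i => ?_))
    · rw [Pi.add_apply, Pi.add_apply, FF_left, FF_left, hL1, add_zero]
    · rw [Pi.add_apply, Pi.add_apply, FF_mid, FF_mid, hL2, Complex.real_smul]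
      push_cast
      ring
    · rw [Pi.add_apply, Pi.add_apply, FF_right, FF_right, hL3, add_zero]
  have hg : ContDiff ℝ ∞ (fun z : Fin (n + 1) → ℂ => L (G (z 0))) :=
    L.contDiff.comp (G_contDiff.comp (contDiff_apply ℝ ℂ (0 : Fin (n + 1))))
  have hm : ((m : ℕ∞) : WithTop ℕ∞) ≤ ∞ := by exact_mod_cast le_top
  rw [hfun, iteratedFDeriv_add_apply ((FF_contDiff s).contDiffAt.of_le hm)
    (hg.contDiffAt.of_le hm)]
  have hz : iteratedFDeriv ℝ m (fun z : Fin (n + 1) → ℂ => L (G (z 0)))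
      (Pi.single 0 1 : Fin (n + 1) → ℂ) = 0 := by
    have h1 : (fun z : Fin (n + 1) → ℂ => L (G (z 0))) = (L ∘ G) ∘
        (ContinuousLinearMap.proj (R := ℝ) (φ := fun _ : Fin (n + 1) => ℂ) 0) := rfl
    rw [h1, ContinuousLinearMap.iteratedFDeriv_comp_right _ (L.contDiff.comp G_contDiff) _ hm]
    have h2 := L.iteratedFDeriv_comp_left (f := G) (x := (1:ℂ)) (i := m) G_contDiff.contDiffAt hm
    have h3 : (ContinuousLinearMap.proj (R := ℝ) (φ := fun _ : Fin (n + 1) => ℂ) 0)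
        (Pi.single 0 1 : Fin (n + 1) → ℂ) = 1 := by
      rw [ContinuousLinearMap.proj_apply, Pi.single_eq_same]
    rw [h3, h2, G_iter_one]
    ext v
    simp
  rw [hz, add_zero]

private theorem core (n M : ℕ) :
    ∃ Ω' : Set (Fin (n + 1 + 1 + M) → ℂ), StronglyPseudoconvex Ω' ∧ Convex ℝ Ω' ∧
      ∃ f g : (Fin (n + 1) → ℂ) → (Fin (n + 1 + 1 + M) → ℂ),
        ProperMap (unitBall (n + 1)) Ω' f ∧ ProperMap (unitBall (n + 1)) Ω' g ∧
        Function.Injective f ∧ Function.Injective g ∧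
        (∃ z ∈ unitBall (n + 1), f z ≠ g z) ∧
        ∃ p ∈ frontier (unitBall (n + 1)),
          ∀ m : ℕ, iteratedFDeriv ℝ m f p = iteratedFDeriv ℝ m g p := by
  obtain ⟨s, hs, hs1, hs2⟩ := exists_scale
  set κ : ℂ → ℝ := fun u => ‖(s : ℂ) * G u‖ ^ 2 with hκdef
  have hκ : ContDiff ℝ ∞ κ := (contDiff_const.mul G_contDiff).norm_sq ℝ
  have hk0 : ∀ u, 0 ≤ κ u := fun u => by positivity
  have hΩ' := spc_PP (N := n + 1 + 1 + M) 0 (Fin.castAdd M (Fin.castSucc 0)) κ hκ hk0 hs1 hs2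
  set Ω' : Set (Fin (n + 1 + 1 + M) → ℂ) :=
    {z | PP 0 (Fin.castAdd M (Fin.castSucc 0)) κ z < 0} with hΩ'def
  have hbdd : Bornology.IsBounded (unitBall (n + 1)) := (ball_spc n).2.2.1
  have hmaps : ∀ t : ℝ, s ^ 2 = t ^ 2 → ∀ z, FF M t z ∈ Ω' ↔ z ∈ unitBall (n + 1) := by
    intro t ht z
    simp only [hΩ'def, unitBall, Set.mem_ofPred_eq, hκdef]
    rw [FF_PP s t ht, sub_neg]
  have hP : ∀ t : ℝ, s ^ 2 = t ^ 2 → ProperMap (unitBall (n + 1)) Ω' (FF M t) := by
    intro t ht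
    refine ⟨FF_contDiff t, (FF_holo t).mono (fun z hz => ball_re hz),
      fun z hz => (hmaps t ht z).mpr hz, ?_⟩
    intro K hK hKΩ
    have e1 : unitBall (n + 1) ∩ FF M t ⁻¹' K = FF M t ⁻¹' K := by
      apply Set.inter_eq_right.mpr
      intro z hz
      exact (hmaps t ht z).mp (hKΩ hz)
    rw [e1]
    refine Metric.isCompact_of_isClosed_isBounded
      (hK.isClosed.preimage (FF_contDiff t).continuous) ?_
    refine hbdd.subset ?_
    intro z hz
    exact (hmaps t ht z).mp (hKΩ hz)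
  have hneg : s ^ 2 = (-s) ^ 2 := by ring
  refine ⟨Ω', hΩ', convex_PP _ _ _ hκ hs2, FF M s, FF M (-s), hP s rfl, hP (-s) hneg,
    FF_injective s, FF_injective (-s), ⟨0, ?_, ?_⟩, Pi.single 0 1, one_mem_frontier n,
    flat_diff n M s⟩
  · change ∑ i : Fin (n + 1), ‖(0 : Fin (n + 1) → ℂ) i‖ ^ 2 < 1
    simp
  · intro h
    have h1 := congrFun h (Fin.castAdd M (Fin.last (n + 1)))
    rw [FF_mid, FF_mid, Pi.zero_apply] at h1
    have h2 : G 0 = H 1 := by unfold G; rw [sub_zero]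
    rw [h2] at h1
    have h4 : (s : ℂ) * H 1 = 0 := by
      have : (2:ℂ) * ((s : ℂ) * H 1) = 0 := by
        push_cast at h1
        linear_combination h1
      simpa using this
    rcases mul_eq_zero.mp h4 with h | h
    · exact hs.ne' (by exact_mod_cast h)
    · exact H_one_ne_zero h

theorem result (n N : ℕ) (hn : 1 ≤ n) (hN : n + 1 ≤ N) :
    StronglyPseudoconvex (unitBall n) ∧
    ∃ Ω' : Set (Fin N → ℂ), StronglyPseudoconvex Ω' ∧ Convex ℝ Ω' ∧
      ∃ f g : (Fin n → ℂ) → (Fin N → ℂ),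
        ProperMap (unitBall n) Ω' f ∧ ProperMap (unitBall n) Ω' g ∧
        Function.Injective f ∧ Function.Injective g ∧ (∃ z ∈ unitBall n, f z ≠ g z) ∧
        ∃ p ∈ frontier (unitBall n), ∀ m : ℕ, iteratedFDeriv ℝ m f p = iteratedFDeriv ℝ m g p := by
  obtain ⟨n, rfl⟩ : ∃ n', n = n' + 1 := ⟨n - 1, by omega⟩
  obtain ⟨M, rfl⟩ := Nat.exists_eq_add_of_le hN
  exact ⟨ball_spc n, core n M⟩

end Pool.Agent.Results.MP_420470_an.FlatContactMaps
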